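import Pool.Agent.H45.Penney

open MeasureTheory Filter Finset Asymptotics Pool.Agent.H45.Penney

namespace Pool.Agent.Results.MP_988dcd_pr.Rate

/-- winning probability of the best response, averaged over a uniform first string -/
noncomputable def p (n : ℕ) : ℝ :=
  (∑ A : Fin n → Bool, ⨆ B : {B // B ≠ A}, coin.real (win B.1 A)) / 2 ^ n

def sh {n : ℕ} (A : Fin (n + 1) → Bool) : Fin (n + 1) → Bool := Fin.cons (!A 0) (Fin.init A)

lemma sh_ne {n : ℕ} (A : Fin (n + 2) → Bool) : sh A ≠ A := fun h => by simpa [sh] using congrFun h 0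

lemma sh_val {n : ℕ} (A : Fin (n + 1) → Bool) (i j : Fin (n + 1)) (h : (j : ℕ) = 1 + i) : sh A j = A i := by
  obtain ⟨j, rfl⟩ := j.exists_succ_eq.2 (by rintro rfl; simp at h; omega)
  simp only [sh, Fin.cons_succ, Fin.init]; congr 1; ext; simp at *; omega

lemma up {n : ℕ} {A B : Fin (n + 2) → Bool} (h : B ≠ A) :
    coin.real (win B A) ≤ 2 / 3 + (tl 1 A A + tl 2 (sh A) A) := by
  classical
  obtain ⟨h1, h2⟩ := odds h
  rw [cr_self (by omega), cr_self (by omega), cr_ne (by omega) h, cr_ne (by omega) h.symm,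
    tl_one (by omega) B A] at h2
  have a : (if ov B A 1 then 1 / 2 else 0) + tl 2 B A ≤ 1 / 2 + tl 2 (sh A) A := by
    split_ifs with e
    · refine add_le_add_right (le_of_eq (sum_congr rfl fun r hr => if_congr ?_ rfl rfl)) _
      refine forall₃_congr fun i j e' => ?_
      have := (mem_Ico.1 hr).1
      rw [e ⟨j - 1, by omega⟩ j (by simp; omega), sh_val A ⟨j - 1, by omega⟩ j (by simp; omega)]
    · linarith [tl_two B A, tl_nonneg 2 (sh A) A]
  have x := measureReal_nonneg (μ := coin) (s := win B A)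
  have y := measureReal_nonneg (μ := coin) (s := win A B)
  nlinarith [mul_nonneg x (tl_nonneg 1 A A), mul_nonneg x (tl_nonneg 1 B B), mul_nonneg y (tl_nonneg 1 A B),
    mul_nonneg y (tl_nonneg 2 (sh A) A), mul_le_mul_of_nonneg_left a x, tl_nonneg 1 A A, tl_nonneg 2 (sh A) A]

lemma low {n : ℕ} (A : Fin (n + 2) → Bool) :
    2 / 3 - (tl 1 (sh A) (sh A) + tl 1 A (sh A)) ≤ coin.real (win (sh A) A) := by
  obtain ⟨h1, h2⟩ := odds (sh_ne A)
  rw [cr_self (by omega), cr_self (by omega), cr_ne (by omega) (sh_ne A), cr_ne (by omega) (sh_ne A).symm,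
    tl_one (by omega) (sh A) A, if_pos (show ov (sh A) A 1 from sh_val A)] at h2
  have := measureReal_nonneg (μ := coin) (s := win (sh A) A)
  have := measureReal_nonneg (μ := coin) (s := win A (sh A))
  nlinarith [tl_nonneg 1 A A, tl_nonneg 1 (sh A) (sh A), tl_nonneg 1 A (sh A), tl_nonneg 2 (sh A) A]

lemma sh_eq {n : ℕ} {A B : Fin (n + 1) → Bool} {j : Fin (n + 1)} (h : ∀ i < j, A i = B i)
    (i : Fin (n + 1)) (hi : i ≤ j) (hj : 0 < j) : sh A i = sh B i := by
  induction i using Fin.cases with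
  | zero => simp [sh, h 0 hj]
  | succ i => exact h _ (Fin.castSucc_lt_succ.trans_le hi)

theorem result : (fun n => p n - 2 / 3) =O[atTop] fun n : ℕ => (n : ℝ) / 2 ^ n := by
  refine .of_bound 4 (eventually_atTop.2 ⟨2, fun n hn => ?_⟩)
  obtain ⟨n, rfl⟩ := Nat.exists_eq_add_of_le' hn
  have s1 := sum_tl (k := 1) (n := n + 2) id id fun r hr A B a b j hj _ h =>
    (a ⟨j - r, by omega⟩ j (by simp; omega)).trans ((h _ (by simp only [Fin.lt_def, Fin.val_zero]; omega)).trans
      (b ⟨j - r, by omega⟩ j (by simp; omega)).symm)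
  have s4 := sum_tl (k := 1) (n := n + 2) id sh fun r hr A B a b j hj _ h =>
    (a ⟨j - r, by omega⟩ j (by simp; omega)).trans ((sh_eq h _ (by simp only [Fin.le_def]; omega)
      (by simp only [Fin.lt_def, Fin.val_zero]; omega)).trans (b ⟨j - r, by omega⟩ j (by simp; omega)).symm)
  have s2 := sum_tl (k := 2) (n := n + 2) sh id fun r hr A B a b j hj hj' h =>
    (sh_val A j ⟨_, hj'⟩ (add_comm _ _)).symm.trans ((a ⟨j + 1 - r, by omega⟩ _ (by simp; omega)).trans
      ((h _ (by simp only [Fin.lt_def, Fin.val_zero]; omega)).trans ((b ⟨j + 1 - r, by omega⟩ _ (by simp; omega)).symm.trans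
        (sh_val B j ⟨_, hj'⟩ (add_comm _ _)))))
  have s3 := sum_tl (k := 1) (n := n + 2) sh sh fun r hr A B a b j hj hj' h =>
    (sh_val A j ⟨_, hj'⟩ (add_comm _ _)).symm.trans ((a ⟨j + 1 - r, by omega⟩ _ (by simp; omega)).trans
      ((sh_eq h _ (by simp only [Fin.le_def]; omega) (by simp only [Fin.lt_def, Fin.val_zero]; omega)).trans
        ((b ⟨j + 1 - r, by omega⟩ _ (by simp; omega)).symm.trans (sh_val B j ⟨_, hj'⟩ (add_comm _ _)))))
  have u := sum_le_sum (s := univ) fun (A : Fin (n + 2) → Bool) _ =>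
    have : Nonempty {B // B ≠ A} := ⟨⟨_, sh_ne A⟩⟩
    ciSup_le (f := fun B : {B // B ≠ A} => coin.real (win B.1 A)) fun B => up B.2
  have l := sum_le_sum (s := univ) fun (A : Fin (n + 2) → Bool) _ => (low A).trans
    (le_ciSup (f := fun B : {B // B ≠ A} => coin.real (win B.1 A)) (Set.finite_range _).bddAbove ⟨_, sh_ne A⟩)
  simp only [sum_add_distrib, sum_sub_distrib, sum_const, card_univ, Fintype.card_fun, Fintype.card_bool,
    Fintype.card_fin, nsmul_eq_mul, Nat.cast_pow, Nat.cast_ofNat, id] at u l s1 s2 s3 s4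
  rw [p, Real.norm_of_nonneg (r := _ / _) (by positivity), ← mul_div_assoc, Real.norm_eq_abs, abs_le,
    le_sub_iff_add_le, sub_le_iff_le_add, le_div_iff₀ (by positivity), div_le_iff₀ (by positivity),
    add_mul, add_mul, neg_mul, div_mul_cancel₀ _ (by positivity)]
  exact ⟨by linarith, by linarith⟩

end Pool.Agent.Results.MP_988dcd_pr.Rate
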